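import Mathlib

set_option autoImplicit false

/-!
Definitions used by the statement `MP_5f0000_al.PropertyTOntoPSU3`:
the unitary dual of a discrete group with its Fell topology, Kazhdan's property (T),
and the groups `SU₃(q)` and `PSU₃(q)`.
-/

namespace Pool.Agent.Helper5.BK

noncomputable section

open scoped InnerProductSpace Topology Matrix

/-- A unitary representation of the discrete group `G` on a complex Hilbert space `V`. -/
structure URep (G : Type) [Group G] where
  /-- the Hilbert space -/
  V : Type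
  [nacg : NormedAddCommGroup V]
  [ips : InnerProductSpace ℂ V]
  [complete : CompleteSpace V]
  /-- the homomorphism to the unitary group of `V` (the group of the surjective linear
  isometries) -/
  ρ : G →* (V ≃ₗᵢ[ℂ] V)

attribute [instance] URep.nacg URep.ips URep.complete

variable {G : Type} [Group G]

/-- The action of a group element on the space of a representation. -/
def URep.act (π : URep G) (g : G) (v : π.V) : π.V := π.ρ g v

/-- Irreducible: the space is nonzero, and `0` and the whole space are the only closed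
subspaces mapped into themselves by all group elements. -/
def URep.IsIrr (π : URep G) : Prop :=
  Nontrivial π.V ∧ ∀ W : Submodule ℂ π.V, IsClosed (W : Set π.V) →
    (∀ g : G, ∀ w ∈ W, π.act g w ∈ W) → W = ⊥ ∨ W = ⊤

variable (G) in
/-- The irreducible unitary representations. -/
def Irr : Type 1 := {π : URep G // π.IsIrr}

/-- Unitary equivalence: a surjective linear isometry intertwining the two actions. -/
def UEquiv (π π' : Irr G) : Prop :=
  ∃ e : π.1.V ≃ₗᵢ[ℂ] π'.1.V, ∀ (g : G) (v : π.1.V), e (π.1.act g v) = π'.1.act g (e v)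

theorem UEquiv.equivalence : Equivalence (UEquiv (G := G)) where
  refl π := ⟨LinearIsometryEquiv.refl ℂ π.1.V, fun _ _ => rfl⟩
  symm := by
    rintro π π' ⟨e, he⟩
    refine ⟨e.symm, fun g v => ?_⟩
    apply e.injective
    rw [he, e.apply_symm_apply, e.apply_symm_apply]
  trans := by
    rintro π π' π'' ⟨e, he⟩ ⟨f, hf⟩
    refine ⟨e.trans f, fun g v => ?_⟩
    rw [LinearIsometryEquiv.trans_apply, LinearIsometryEquiv.trans_apply, he, hf]

variable (G) in
/-- Unitary equivalence as a setoid. -/
def uSetoid : Setoid (Irr G) := ⟨UEquiv, UEquiv.equivalence⟩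

variable (G) in
/-- The unitary dual of `G`: the set of equivalence classes of irreducible unitary
representations of `G`. -/
def Dual : Type 1 := Quotient (uSetoid G)

/-- The class of an irreducible representation in the unitary dual. -/
def cls (π : Irr G) : Dual G := Quotient.mk (uSetoid G) π

/-- The basic set `W(π, F, Q, ε)` of the Fell topology: the classes of the irreducible `π'`
such that for every vector `ξ` of the finite set `F` of vectors of `π` there are finitely many
vectors `η₁, …, ηₙ` of `π'` with `|⟨ξ, π(g)ξ⟩ - Σᵢ ⟨ηᵢ, π'(g)ηᵢ⟩| < ε` for every `g` in the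
finite set `Q` of group elements. -/
def fellSet (π : Irr G) (F : Finset π.1.V) (Q : Finset G) (ε : ℝ) : Set (Dual G) :=
  {x | ∃ π' : Irr G, cls π' = x ∧ ∀ ξ ∈ F, ∃ (n : ℕ) (η : Fin n → π'.1.V), ∀ g ∈ Q,
    ‖⟪ξ, π.1.act g ξ⟫_ℂ - ∑ i, ⟪η i, π'.1.act g (η i)⟫_ℂ‖ < ε}

variable (G) in
/-- The Fell topology on the unitary dual, generated by the sets `W(π, F, Q, ε)` with `ε > 0`. -/
abbrev fell : TopologicalSpace (Dual G) :=
  TopologicalSpace.generateFrom
    {U | ∃ (π : Irr G) (F : Finset π.1.V) (Q : Finset G) (ε : ℝ), 0 < ε ∧ U = fellSet π F Q ε}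

variable (G) in
/-- The trivial one-dimensional representation, on `ℂ`. -/
def trivRep : URep G where
  V := ℂ
  ρ := 1

theorem trivRep_act (g : G) (v : ℂ) : (trivRep G).act g v = v := rfl

theorem trivRep_isIrr : (trivRep G).IsIrr := by
  refine ⟨inferInstanceAs (Nontrivial ℂ), fun W _ _ => ?_⟩
  exact (eq_bot_or_eq_top (α := Submodule ℂ ℂ) W)

variable (G) in
/-- The trivial representation as an irreducible representation. -/
def trivIrr : Irr G := ⟨trivRep G, trivRep_isIrr⟩

variable (G) in
/-- Kazhdan's property (T): the trivial one-dimensional representation is an isolated point of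
the unitary dual with the Fell topology. -/
def PropertyT : Prop := IsOpen[fell G] {cls (trivIrr G)}

/-- A Kazhdan pair: a finite set `Q` and `ε > 0` such that every unitary representation of `G` on
a Hilbert space (in the universe `u`) with a unit vector moved by less than `ε` by every element
of `Q` has a nonzero invariant vector. -/
def HasKazhdanPair.{u} (G : Type) [Group G] : Prop :=
  ∃ (Q : Finset G) (ε : ℝ), 0 < ε ∧
    ∀ (H : Type u) [NormedAddCommGroup H] [InnerProductSpace ℂ H] [CompleteSpace H]
      (ρ : G →* (H ≃ₗᵢ[ℂ] H)) (v : H), ‖v‖ = 1 →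
      (∀ g ∈ Q, ‖ρ g v - v‖ < ε) → ∃ w : H, w ≠ 0 ∧ ∀ g : G, ρ g w = w

section SU

theorem pow_eq_frob (p m : ℕ) [Fact p.Prime] :
    (fun x : GaloisField p (2 * m) => x ^ (p ^ m)) =
      ⇑(iterateFrobenius (GaloisField p (2 * m)) p m) :=
  funext (fun x => (iterateFrobenius_def p m x).symm)

/-- `SU₃(q)` for `q = p ^ m`: the `3 × 3` matrices `g` of determinant `1` over the field with
`q²` elements with `(g^{(q)})ᵀ g = 1`, where `g^{(q)}` has the entries `g_{ij}^q`; they are the
matrices of determinant `1` preserving the hermitian form `Σ xᵢ^q yᵢ`. -/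
def SU3 (p m : ℕ) [Fact p.Prime] :
    Subgroup (Matrix.SpecialLinearGroup (Fin 3) (GaloisField p (2 * m))) where
  carrier := {g | ((g : Matrix (Fin 3) (Fin 3) (GaloisField p (2 * m))).map
      (fun x => x ^ (p ^ m)))ᵀ * (g : Matrix (Fin 3) (Fin 3) (GaloisField p (2 * m))) = 1}
  one_mem' := by
    change ((1 : Matrix (Fin 3) (Fin 3) (GaloisField p (2 * m))).map
      (fun x => x ^ (p ^ m)))ᵀ * (1 : Matrix (Fin 3) (Fin 3) (GaloisField p (2 * m))) = 1
    rw [pow_eq_frob, Matrix.map_one _ (map_zero _) (map_one _)]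
    simp
  mul_mem' := by
    intro a b ha hb
    change ((a.1 * b.1).map (fun x => x ^ (p ^ m)))ᵀ * (a.1 * b.1) = 1
    change (a.1.map (fun x => x ^ (p ^ m)))ᵀ * a.1 = 1 at ha
    change (b.1.map (fun x => x ^ (p ^ m)))ᵀ * b.1 = 1 at hb
    rw [pow_eq_frob] at *
    rw [Matrix.map_mul, Matrix.transpose_mul]
    set A := (a.1.map (iterateFrobenius (GaloisField p (2 * m)) p m))ᵀ
    set B := (b.1.map (iterateFrobenius (GaloisField p (2 * m)) p m))ᵀ
    calc B * A * (a.1 * b.1) = B * (A * a.1) * b.1 := by simp only [Matrix.mul_assoc]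
      _ = 1 := by rw [ha, Matrix.mul_one, hb]
  inv_mem' := by
    intro a ha
    change (a.1.map (fun x => x ^ (p ^ m)))ᵀ * a.1 = 1 at ha
    change ((a⁻¹).1.map (fun x => x ^ (p ^ m)))ᵀ * (a⁻¹).1 = 1
    rw [pow_eq_frob] at *
    have h1 : a.1 * (a⁻¹).1 = 1 := congrArg Subtype.val (mul_inv_cancel a)
    have h2 : (a.1.map (iterateFrobenius (GaloisField p (2 * m)) p m))ᵀ = (a⁻¹).1 := by
      calc (a.1.map _)ᵀ = (a.1.map _)ᵀ * (a.1 * (a⁻¹).1) := by rw [h1, Matrix.mul_one]
        _ = ((a.1.map _)ᵀ * a.1) * (a⁻¹).1 := by rw [Matrix.mul_assoc]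
        _ = (a⁻¹).1 := by rw [ha, Matrix.one_mul]
    have h3 : ((a⁻¹).1.map (iterateFrobenius (GaloisField p (2 * m)) p m))ᵀ *
        (a.1.map (iterateFrobenius (GaloisField p (2 * m)) p m))ᵀ = 1 := by
      rw [← Matrix.transpose_mul, ← Matrix.map_mul, h1,
        Matrix.map_one _ (map_zero _) (map_one _), Matrix.transpose_one]
    rwa [h2] at h3

/-- `PSU₃(q)` for `q = p ^ m`: the quotient of `SU₃(q)` by its centre. -/
def PSU3 (p m : ℕ) [Fact p.Prime] : Type := ↥(SU3 p m) ⧸ Subgroup.center ↥(SU3 p m)

/-- The group structure of `PSU₃(q)` is that of the quotient group. -/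
instance PSU3.group (p m : ℕ) [Fact p.Prime] : Group (PSU3 p m) :=
  QuotientGroup.Quotient.group (Subgroup.center ↥(SU3 p m))

end SU

end

end Pool.Agent.Helper5.BK
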