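import Mathlib
import Pool.Agent.Helper5.BK.Defs

set_option autoImplicit false

namespace Pool.Agent.Helper5.BK

open scoped InnerProductSpace Topology Matrix

variable {G : Type} [Group G]

theorem norm_act (π : URep G) (g : G) (v : π.V) : ‖π.act g v‖ = ‖v‖ := (π.ρ g).norm_map v

/-- an irreducible representation with a nonzero invariant vector is equivalent to the trivial
one -/
theorem cls_eq_triv (π : Irr G) (w : π.1.V) (hw : w ≠ 0) (hinv : ∀ g, π.1.act g w = w) :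
    cls π = cls (trivIrr G) := by
  symm
  apply Quotient.sound
  set u : π.1.V := ((‖w‖ : ℂ)⁻¹) • w with hu
  have hnw : ‖w‖ ≠ 0 := norm_ne_zero_iff.mpr hw
  have hnu : ‖u‖ = 1 := by
    rw [hu, norm_smul, norm_inv, Complex.norm_real, norm_norm, inv_mul_cancel₀ hnw]
  have hu0 : u ≠ 0 := by rintro h; rw [h, norm_zero] at hnu; exact zero_ne_one hnu
  have huinv : ∀ g, π.1.act g u = u := by
    intro g
    have : π.1.act g u = ((‖w‖ : ℂ)⁻¹) • π.1.act g w := by
      change π.1.ρ g u = _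
      rw [hu, map_smul]; rfl
    rw [this, hinv]
  have hsmul : ∀ g (a : ℂ), π.1.act g (a • u) = a • u := by
    intro g a
    have : π.1.act g (a • u) = a • π.1.act g u := by
      change π.1.ρ g (a • u) = _
      rw [map_smul]; rfl
    rw [this, huinv]
  have htop : (ℂ ∙ u) = ⊤ := by
    rcases π.2.2 (ℂ ∙ u) (Submodule.closed_of_finiteDimensional _) (by
      intro g x hx
      obtain ⟨a, rfl⟩ := Submodule.mem_span_singleton.mp hx
      rw [hsmul]; exact hx) with h | h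
    · exact absurd (Submodule.span_singleton_eq_bot.mp h) hu0
    · exact h
  let f : ℂ →ₗᵢ[ℂ] π.1.V :=
    { toLinearMap := LinearMap.toSpanSingleton ℂ π.1.V u
      norm_map' := by
        intro a
        rw [LinearMap.toSpanSingleton_apply, norm_smul, hnu, mul_one] }
  have hf : Function.Surjective f := by
    intro x
    have hx : x ∈ (ℂ ∙ u) := by rw [htop]; trivial
    obtain ⟨a, rfl⟩ := Submodule.mem_span_singleton.mp hx
    exact ⟨a, rfl⟩
  refine ⟨LinearIsometryEquiv.ofSurjective f hf, fun g v => ?_⟩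
  exact (hsmul g v).symm

/-- a Kazhdan pair makes the trivial representation isolated -/
theorem propertyT_of_kazhdan (Q0 : Finset G) (δ : ℝ) (hδ : 0 < δ)
    (hK : ∀ (H : Type) [NormedAddCommGroup H] [InnerProductSpace ℂ H] [CompleteSpace H]
      (ρ : G →* (H ≃ₗᵢ[ℂ] H)) (v : H), ‖v‖ = 1 →
      (∀ g ∈ Q0, ‖ρ g v - v‖ < δ) →
      ∃ w : H, w ≠ 0 ∧ ∀ g : G, ρ g w = w) : PropertyT G := by
  classical
  set N : ℝ := (Q0.card : ℝ) + 1 with hN
  have hN0 : 0 < N := by positivity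
  set ε : ℝ := min (1 / 2) (δ ^ 2 / (8 * N)) with hε
  have hε0 : 0 < ε := lt_min (by norm_num) (by positivity)
  have hset : ({cls (trivIrr G)} : Set (Dual G)) =
      fellSet (trivIrr G) {(1 : ℂ)} (insert 1 Q0) ε := by
    apply Set.eq_of_subset_of_subset
    · rintro x rfl
      refine ⟨trivIrr G, rfl, fun ξ hξ => ⟨1, fun _ => ξ, fun g _ => ?_⟩⟩
      simpa using hε0
    · rintro x ⟨π', rfl, hπ⟩
      obtain ⟨n, η, hη⟩ := hπ (1 : ℂ) (Finset.mem_singleton_self _)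
      have hη' : ∀ g ∈ insert 1 Q0, ‖(1 : ℂ) - ∑ i, ⟪η i, π'.1.act g (η i)⟫_ℂ‖ < ε := by
        intro g hg
        have h0 : ‖(⟪(1 : ℂ), (1 : ℂ)⟫_ℂ : ℂ) - ∑ i, ⟪η i, π'.1.act g (η i)⟫_ℂ‖ < ε := hη g hg
        have e : (⟪(1 : ℂ), (1 : ℂ)⟫_ℂ : ℂ) = 1 := by simp
        rw [e] at h0
        exact h0
      -- real parts
      have hre : ∀ g ∈ insert 1 Q0, |1 - ∑ i, (⟪η i, π'.1.act g (η i)⟫_ℂ).re| < ε := by
        intro g hg
        have h1 := Complex.abs_re_le_norm ((1 : ℂ) - ∑ i, ⟪η i, π'.1.act g (η i)⟫_ℂ)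
        rw [Complex.sub_re, Complex.re_sum, Complex.one_re] at h1
        exact h1.trans_lt (hη' g hg)
      have h1 : |1 - ∑ i, ‖η i‖ ^ 2| < ε := by
        have h2 := hre 1 (Finset.mem_insert_self _ _)
        have e : ∀ i, (⟪η i, π'.1.act 1 (η i)⟫_ℂ).re = ‖η i‖ ^ 2 := by
          intro i
          have : π'.1.act 1 (η i) = η i := by
            change π'.1.ρ 1 (η i) = η i
            rw [map_one]; rfl
          rw [this]
          exact inner_self_eq_norm_sq (𝕜 := ℂ) _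
        simpa only [e] using h2
      have hnorm : ∀ g i, ‖π'.1.act g (η i) - η i‖ ^ 2 =
          2 * ‖η i‖ ^ 2 - 2 * (⟪η i, π'.1.act g (η i)⟫_ℂ).re := by
        intro g i
        have h2 := norm_sub_sq (𝕜 := ℂ) (π'.1.act g (η i)) (η i)
        rw [norm_act] at h2
        have h3 : RCLike.re (⟪π'.1.act g (η i), η i⟫_ℂ : ℂ) =
            (⟪η i, π'.1.act g (η i)⟫_ℂ).re := inner_re_symm (𝕜 := ℂ) _ _
        rw [h3] at h2
        linarith
      by_contra hcls
      have hbad : ∀ i, δ ^ 2 * ‖η i‖ ^ 2 ≤ ∑ g ∈ Q0, ‖π'.1.act g (η i) - η i‖ ^ 2 := by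
        intro i
        have hnn : ∀ g ∈ Q0, 0 ≤ ‖π'.1.act g (η i) - η i‖ ^ 2 := fun g _ => by positivity
        by_cases h0 : η i = 0
        · rw [h0, norm_zero]
          have : δ ^ 2 * (0 : ℝ) ^ 2 = 0 := by ring
          rw [this, ← h0]
          exact Finset.sum_nonneg hnn
        have hn0 : 0 < ‖η i‖ := norm_pos_iff.mpr h0
        by_contra hlt
        push Not at hlt
        apply hcls
        have hsm : ∀ g ∈ Q0, ‖π'.1.act g (η i) - η i‖ < δ * ‖η i‖ := by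
          intro g hg
          have h3 : ‖π'.1.act g (η i) - η i‖ ^ 2 < (δ * ‖η i‖) ^ 2 := by
            rw [mul_pow]
            exact lt_of_le_of_lt (Finset.single_le_sum hnn hg) hlt
          exact lt_of_pow_lt_pow_left₀ 2 (by positivity) h3
        have hu1 : ‖((‖η i‖ : ℂ)⁻¹) • η i‖ = 1 := by
          rw [norm_smul, norm_inv, Complex.norm_real, norm_norm, inv_mul_cancel₀ hn0.ne']
        obtain ⟨w, hw, hwinv⟩ := hK π'.1.V π'.1.ρ (((‖η i‖ : ℂ)⁻¹) • η i) hu1 (by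
          intro g hg
          rw [map_smul, ← smul_sub, norm_smul, norm_inv, Complex.norm_real, norm_norm]
          have h4 := hsm g hg
          change ‖π'.1.ρ g (η i) - η i‖ < δ * ‖η i‖ at h4
          rw [inv_mul_lt_iff₀ hn0, mul_comm]
          exact h4)
        exact cls_eq_triv π' w hw hwinv
      have hsum : δ ^ 2 * ∑ i, ‖η i‖ ^ 2 ≤
          ∑ g ∈ Q0, (2 * ∑ i, ‖η i‖ ^ 2 - 2 * ∑ i, (⟪η i, π'.1.act g (η i)⟫_ℂ).re) := by
        calc δ ^ 2 * ∑ i, ‖η i‖ ^ 2 = ∑ i, δ ^ 2 * ‖η i‖ ^ 2 := Finset.mul_sum _ _ _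
          _ ≤ ∑ i, ∑ g ∈ Q0, ‖π'.1.act g (η i) - η i‖ ^ 2 := Finset.sum_le_sum (fun i _ => hbad i)
          _ = ∑ g ∈ Q0, ∑ i, ‖π'.1.act g (η i) - η i‖ ^ 2 := Finset.sum_comm
          _ = _ := by
            refine Finset.sum_congr rfl (fun g _ => ?_)
            simp only [hnorm, Finset.sum_sub_distrib, ← Finset.mul_sum]
      have hle : ∑ g ∈ Q0, (2 * ∑ i, ‖η i‖ ^ 2 - 2 * ∑ i, (⟪η i, π'.1.act g (η i)⟫_ℂ).re) ≤
          ∑ g ∈ Q0, 4 * ε := by
        refine Finset.sum_le_sum (fun g hg => ?_)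
        have h5 := abs_lt.mp (hre g (Finset.mem_insert_of_mem hg))
        have h6 := abs_lt.mp h1
        linarith [h5.1, h5.2, h6.1, h6.2]
      rw [Finset.sum_const, nsmul_eq_mul] at hle
      have h7 := abs_lt.mp h1
      have hε1 : ε ≤ 1 / 2 := min_le_left _ _
      have hε2 : ε ≤ δ ^ 2 / (8 * N) := min_le_right _ _
      have hε3 : ε * (8 * N) ≤ δ ^ 2 := (le_div_iff₀ (by positivity)).mp hε2
      have h8 : 1 / 2 < ∑ i, ‖η i‖ ^ 2 := by linarith [h7.2]
      have h9 : δ ^ 2 * (1 / 2) < δ ^ 2 * ∑ i, ‖η i‖ ^ 2 :=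
        mul_lt_mul_of_pos_left h8 (by positivity)
      have h10 : (Q0.card : ℝ) * (4 * ε) ≤ N * (4 * ε) := by
        apply mul_le_mul_of_nonneg_right _ (by positivity)
        rw [hN]; linarith
      nlinarith
  change IsOpen[fell G] _
  rw [hset]
  exact TopologicalSpace.isOpen_generateFrom_of_mem ⟨trivIrr G, _, _, ε, hε0, rfl⟩

end Pool.Agent.Helper5.BK
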