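import Mathlib
import Pool.Agent.Helper5.Simple

set_option autoImplicit false

namespace Pool.Agent.Helper5.BK

open Matrix Pool.Agent.Helper5.PropT
open scoped LinearAlgebra.Projectivization Pointwise

/-- the norm map of `𝔽_{q²}` onto `𝔽_q` is surjective -/
theorem norm_surj {K : Type} [Field K] [Finite K] (q : ℕ) (hq : 1 < q)
    (hcard : Nat.card K = q * q) (f : K) (hf : f ^ q = f) : ∃ x : K, x * x ^ q = f := by
  rcases eq_or_ne f 0 with rfl | hf0
  · exact ⟨0, by simp⟩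
  obtain ⟨g, hg⟩ := IsCyclic.exists_generator (α := Kˣ)
  have ho : orderOf g = q * q - 1 := by
    rw [orderOf_eq_card_of_forall_mem_zpowers hg, Nat.card_units, hcard]
  have hfac : q * q - 1 = (q + 1) * (q - 1) := by
    obtain ⟨t, rfl⟩ : ∃ t, q = t + 1 := ⟨q - 1, by omega⟩
    have : (t + 1) * (t + 1) = (t + 1 + 1) * t + 1 := by ring
    rw [this]; simp
  have hmem : Units.mk0 f hf0 ∈ Submonoid.powers g :=
    (mem_powers_iff_mem_zpowers).mpr (hg _)
  obtain ⟨k, hk⟩ := hmem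
  have hk' : g ^ k = Units.mk0 f hf0 := hk
  have h1 : g ^ (k * (q - 1)) = 1 := by
    apply Units.ext
    have h2 : f ^ (q - 1) = 1 := by
      have h3 : f ^ (q - 1) * f = 1 * f := by
        rw [← pow_succ, one_mul]
        have : q - 1 + 1 = q := by omega
        rw [this, hf]
      exact mul_right_cancel₀ hf0 h3
    rw [pow_mul, Units.val_pow_eq_pow_val, hk', Units.val_mk0, h2, Units.val_one]
  have h2 := orderOf_dvd_of_pow_eq_one h1
  rw [ho, hfac] at h2
  have h3 : (q + 1) ∣ k := Nat.dvd_of_mul_dvd_mul_right (by omega) h2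
  obtain ⟨l, rfl⟩ := h3
  refine ⟨((g ^ l : Kˣ) : K), ?_⟩
  rw [← pow_succ', ← Units.val_pow_eq_pow_val, ← pow_mul]
  have : l * (q + 1) = (q + 1) * l := mul_comm _ _
  rw [this, hk', Units.val_mk0]

section Geometry

variable {K : Type} [Field K] {σ : K →+* K} {s : K} {p : ℕ} [Fact p.Prime] [Algebra (ZMod p) K]

theorem smul_smul_comm' (g : Matrix.SpecialLinearGroup (Fin 3) K) (a : K) (v : Fin 3 → K) :
    g • (a • v) = a • (g • v) := smul_comm _ _ _

theorem ff_e1_e0 (b : K) : ff σ s e1 (b • e0) = -b := by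
  simp [ff, e1, e0]

theorem ff_e1_UM (c γ : K) : ff σ s e1 (UM σ s c γ • e1) = -γ := by
  rw [UM_e1]
  simp [ff, e1]

/-- the point stabiliser `Ux x` is transitive on the other points -/
theorem Ux_trans0 (h : Good p K σ s) (y z : XX σ s p) (hy : y ≠ x0 σ s p) (hz : z ≠ x0 σ s p) :
    ∃ k ∈ Ux (x0 σ s p), k • y = z := by
  obtain ⟨c, γ, hm, he⟩ := exists_UM h y hy
  obtain ⟨c1, γ1, hm1, he1⟩ := exists_UM h z hz
  refine ⟨(⟨UM σ s c1 γ1, hm1⟩ : ↥(Tri p s (σ s))) * (⟨UM σ s c γ, hm⟩ : ↥(Tri p s (σ s)))⁻¹,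
    mul_mem ?_ (inv_mem ?_), ?_⟩
  · rw [mem_Ux0]; exact UM_e0 c1 γ1
  · rw [mem_Ux0]; exact UM_e0 c γ
  · rw [he, mul_smul, inv_smul_smul, ← he1]

theorem Ux_trans (h : Good p K σ s) (x y z : XX σ s p) (hy : y ≠ x) (hz : z ≠ x) :
    ∃ k ∈ Ux x, k • y = z := by
  obtain ⟨w, hw⟩ := MulAction.exists_smul_eq (↥(Tri p s (σ s))) (x0 σ s p) x
  obtain ⟨k, hk, hk'⟩ := Ux_trans0 h (w⁻¹ • y) (w⁻¹ • z)
    (fun h' => hy (by rw [← hw, ← h', smul_inv_smul]))
    (fun h' => hz (by rw [← hw, ← h', smul_inv_smul]))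
  refine ⟨w * k * w⁻¹, ?_, ?_⟩
  · rw [← hw, Ux_smul]
    have : w⁻¹ * (w * k * w⁻¹) * w = k := by group
    rw [this]; exact hk
  · rw [mul_smul, mul_smul, hk', smul_inv_smul]

theorem mem_Ux1 (k : ↥(Tri p s (σ s))) (hk : k ∈ Ux (x1 σ s p)) :
    k.1 • (e1 : Fin 3 → K) = e1 := hk e1 e1_ne rfl

/-- the elements exchanging the two base points, with every scalar -/
theorem exists_swap (h : Good p K σ s) (hN : ∀ f : K, σ f = f → ∃ x, x * σ x = f) (γ : K)
    (hγ : γ ≠ 0) : ∃ n : ↥(Tri p s (σ s)), n.1 • (e1 : Fin 3 → K) = γ • e0 ∧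
      n • x0 σ s p = x1 σ s p := by
  have hd : s - σ s ≠ 0 := sub_ne_zero.mpr h.hne
  have hd' : σ s - s ≠ 0 := sub_ne_zero.mpr h.hne.symm
  obtain ⟨c, hc⟩ := hN ((γ - σ γ) / (s - σ s)) (by
    rw [map_div₀, map_sub, map_sub, h.hσ, h.hσ]
    field_simp
    ring)
  have hadm : γ - σ γ = (s - σ s) * (c * σ c) := by
    rw [hc]; field_simp
  have hum := UM_mem (p := p) h.hσ h.h2 h.hs h.hne h.hgen c γ hadm
  set u : ↥(Tri p s (σ s)) := ⟨UM σ s c γ, hum⟩ with hu
  have hu1 : u • x1 σ s p ≠ x1 σ s p := by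
    intro h'
    have h1 : UM σ s c γ • P1 K = P1 K := congrArg Subtype.val h'
    have h2 := fix_eq_one h.hσ h.hs _ (pres_Tri (p := p) h.hσ h.hs _ hum) (UM_e0 c γ) h1
    have h3 := congrArg (fun g : Matrix.SpecialLinearGroup (Fin 3) K => g • (e1 : Fin 3 → K)) h2
    simp only [one_smul] at h3
    rw [UM_e1] at h3
    have h4 := congrFun h3 2
    have h5 := congrFun h3 0
    simp [e1] at h4 h5
    rw [h4, add_zero] at h5
    exact hγ h5
  obtain ⟨u', hu', hu'1⟩ := Ux_trans h (x1 σ s p) (u • x1 σ s p) (x0 σ s p) hu1 x0_ne_x1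
  have hn0 : (u' * u)⁻¹ • x1 σ s p ≠ x1 σ s p := by
    intro h'
    rw [inv_smul_eq_iff, mul_smul, hu'1] at h'
    exact x0_ne_x1 h'.symm
  obtain ⟨u'', hu'', hu''0⟩ := Ux_trans h (x1 σ s p) (x0 σ s p) ((u' * u)⁻¹ • x1 σ s p)
    x0_ne_x1 hn0
  refine ⟨u' * u * u'', ?_, ?_⟩
  · have hP : (u' * u).1 • P1 K = P0 K := by
      have h1 : (u' * u) • x1 σ s p = x0 σ s p := by rw [mul_smul, hu'1]
      exact congrArg Subtype.val h1
    unfold P0 P1 at hP
    rw [Projectivization.smul_mk, Projectivization.mk_eq_mk_iff'] at hP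
    obtain ⟨b, hb⟩ := hP
    have h1 : ((u' * u) * u'').1 • (e1 : Fin 3 → K) = b • e0 := by
      change ((u' * u).1 * u''.1) • (e1 : Fin 3 → K) = b • e0
      rw [mul_smul, mem_Ux1 u'' hu'', hb]
    rw [h1]
    congr 1
    have h2 : ff σ s e1 ((u' * u).1 • (e1 : Fin 3 → K)) = ff σ s e1 (UM σ s c γ • e1) := by
      have h3 := pres_Tri (p := p) h.hσ h.hs u'.1 u'.2 e1 (UM σ s c γ • e1)
      rw [mem_Ux1 u' hu'] at h3
      rw [← h3]
      change ff σ s e1 ((u'.1 * u.1) • (e1 : Fin 3 → K)) = _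
      rw [mul_smul]
    rw [← hb, ff_e1_e0, ff_e1_UM] at h2
    exact neg_injective h2
  · rw [mul_smul, hu''0, smul_inv_smul]

/-- the torus -/
theorem exists_torus (h : Good p K σ s) (hN : ∀ f : K, σ f = f → ∃ x, x * σ x = f) (b : K)
    (hb : b ≠ 0) : ∃ t : ↥(Tri p s (σ s)), t.1 • (e1 : Fin 3 → K) = b • e1 ∧
      t • x0 σ s p = x0 σ s p := by
  obtain ⟨n, hn, hn0⟩ := exists_swap h hN b hb
  obtain ⟨m, hm, hm0⟩ := exists_swap h hN 1 one_ne_zero
  refine ⟨m⁻¹ * n, ?_, ?_⟩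
  · change (m.1⁻¹ * n.1) • (e1 : Fin 3 → K) = b • e1
    rw [mul_smul, hn, smul_comm, inv_smul_eq_iff.mpr]
    rw [hm, one_smul]
  · rw [mul_smul, hn0, inv_smul_eq_iff, hm0]

/-- The triangle group is the full special unitary group of the form `ff`. -/
theorem mem_Tri_iff (h : Good p K σ s) (hN : ∀ f : K, σ f = f → ∃ x, x * σ x = f)
    (g : Matrix.SpecialLinearGroup (Fin 3) K) : g ∈ Tri p s (σ s) ↔ Pres σ s g := by
  refine ⟨pres_Tri h.hσ h.hs g, fun hg => ?_⟩
  obtain ⟨k1, hk1⟩ := P1_mem_orbit (p := p) (σ := σ) (s := s)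
  -- step A
  obtain ⟨k, hk⟩ : ∃ k : ↥(Tri p s (σ s)), k.1 • P0 K = g • P0 K := by
    by_cases h0 : g • P0 K = P0 K
    · exact ⟨1, by rw [h0]; exact one_smul _ _⟩
    · obtain ⟨c, γ, h1, h2⟩ := orbit_class h.hσ h.hs h.hne g hg h0
      refine ⟨⟨UM σ s c γ, UM_mem h.hσ h.h2 h.hs h.hne h.hgen c γ h1⟩ * k1, ?_⟩
      change (UM σ s c γ * k1.1) • P0 K = _
      rw [mul_smul, hk1, h2]
  set g1 := k.1⁻¹ * g with hg1
  have hg1P : Pres σ s g1 := pres_mul (pres_inv (pres_Tri h.hσ h.hs _ k.2)) hg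
  have hg10 : g1 • P0 K = P0 K := by rw [hg1, mul_smul, ← hk, inv_smul_smul]
  -- step B
  have hg11 : (g1 * k1.1) • P0 K ≠ P0 K := by
    intro h'
    rw [mul_smul, hk1] at h'
    have : P1 K = P0 K := by
      have h2 : g1 • P1 K = g1 • P0 K := by rw [h', hg10]
      exact (smul_left_cancel_iff g1).mp h2
    exact P0_ne_P1 this.symm
  obtain ⟨c, γ, h1, h2⟩ := orbit_class h.hσ h.hs h.hne (g1 * k1.1)
    (pres_mul hg1P (pres_Tri h.hσ h.hs _ k1.2)) hg11
  rw [mul_smul, hk1] at h2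
  have hum := UM_mem (p := p) h.hσ h.h2 h.hs h.hne h.hgen c γ h1
  set g2 := (UM σ s c γ)⁻¹ * g1 with hg2
  have hg2P : Pres σ s g2 := pres_mul (pres_inv (pres_Tri (p := p) h.hσ h.hs _ hum)) hg1P
  have hg20 : g2 • P0 K = P0 K := by
    rw [hg2, mul_smul, hg10, inv_smul_eq_iff, UM_P0]
  have hg21 : g2 • P1 K = P1 K := by rw [hg2, mul_smul, h2, inv_smul_smul]
  -- step C
  obtain ⟨b, hb⟩ : ∃ b : K, b • (e1 : Fin 3 → K) = g2 • e1 := by
    have := hg21
    unfold P1 at this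
    rwa [Projectivization.smul_mk, Projectivization.mk_eq_mk_iff'] at this
  have hb0 : b ≠ 0 := by
    rintro rfl
    rw [zero_smul] at hb
    exact ((smul_ne_zero_iff_ne g2).mpr e1_ne) hb.symm
  obtain ⟨t, ht, ht0⟩ := exists_torus h hN b hb0
  have ht0' : t.1 • P0 K = P0 K := congrArg Subtype.val ht0
  set g3 := t.1⁻¹ * g2 with hg3
  have hg3P : Pres σ s g3 := pres_mul (pres_inv (pres_Tri h.hσ h.hs _ t.2)) hg2P
  have hg31 : g3 • (e1 : Fin 3 → K) = e1 := by
    rw [hg3, mul_smul, ← hb, inv_smul_eq_iff, ht]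
  have hg30 : g3 • P0 K = P0 K := by
    rw [hg3, mul_smul, hg20, inv_smul_eq_iff, ht0']
  -- step D
  obtain ⟨w, hw0, hw1⟩ := two_trans h (x0 σ s p) (x1 σ s p) (x1 σ s p) (x0 σ s p) x0_ne_x1
    x0_ne_x1.symm
  have hw0' : w.1 • P0 K = P1 K := congrArg Subtype.val hw0
  have hw1' : w.1 • P1 K = P0 K := congrArg Subtype.val hw1
  obtain ⟨β, hβ⟩ : ∃ β : K, β • (e1 : Fin 3 → K) = w.1 • e0 := by
    have := hw0'
    unfold P0 P1 at this
    rwa [Projectivization.smul_mk, Projectivization.mk_eq_mk_iff'] at this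
  have h4 : w.1⁻¹ * g3 * w.1 = 1 := by
    apply fix_eq_one h.hσ h.hs
    · exact pres_mul (pres_mul (pres_inv (pres_Tri h.hσ h.hs _ w.2)) hg3P)
        (pres_Tri h.hσ h.hs _ w.2)
    · rw [mul_smul, mul_smul, ← hβ, smul_comm g3, hg31, hβ, inv_smul_smul]
    · rw [mul_smul, mul_smul, hw1', hg30, inv_smul_eq_iff, hw1']
  have h5 : g3 = 1 := by
    have : g3 = w.1 * (w.1⁻¹ * g3 * w.1) * w.1⁻¹ := by group
    rw [this, h4]; group
  have h6 : g = k.1 * (UM σ s c γ * t.1) := by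
    have e1 : g = k.1 * g1 := by rw [hg1]; group
    have e2 : g1 = UM σ s c γ * g2 := by rw [hg2]; group
    have e3 : g2 = t.1 * g3 := by rw [hg3]; group
    rw [e1, e2, e3, h5, mul_one]
  rw [h6]
  exact mul_mem k.2 (mul_mem hum t.2)

/-- an element of some `Ux x` acting trivially is the identity -/
theorem Ux_ker (h : Good p K σ s) (x : XX σ s p) (m : ↥(Tri p s (σ s))) (hm : m ∈ Ux x)
    (hker : ∀ y : XX σ s p, m • y = y) : m = 1 := by
  obtain ⟨w, hw⟩ := MulAction.exists_smul_eq (↥(Tri p s (σ s))) (x0 σ s p) x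
  rw [← hw, Ux_smul, mem_Ux0] at hm
  have h1 : (w⁻¹ * m * w) • x1 σ s p = x1 σ s p := by
    rw [mul_smul, mul_smul, hker, inv_smul_smul]
  have h2 : (w⁻¹ * m * w).1 = 1 :=
    fix_eq_one h.hσ h.hs _ (pres_Tri h.hσ h.hs _ (w⁻¹ * m * w).2) hm (congrArg Subtype.val h1)
  have h3 : w⁻¹ * m * w = 1 := Subtype.ext h2
  have : m = w * (w⁻¹ * m * w) * w⁻¹ := by group
  rw [this, h3]; group

/-- the kernel of the action is the centre -/
theorem ker_eq_center (h : Good p K σ s) :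
    (MulAction.toPermHom (↥(Tri p s (σ s))) (XX σ s p)).ker =
      Subgroup.center ↥(Tri p s (σ s)) := by
  apply le_antisymm
  · intro g hg
    have hgy : ∀ y : XX σ s p, g • y = y := fun y =>
      congrArg (fun q : Equiv.Perm (XX σ s p) => q y) (MonoidHom.mem_ker.mp hg)
    have hcent : ∀ x : XX σ s p, Tx x ≤ Subgroup.centralizer {g} := by
      intro x k hk
      have hkU : k ∈ Ux x := ((mem_Tx x k).mp hk).1
      rw [Subgroup.mem_centralizer_singleton_iff]
      have h1 : g * k * g⁻¹ ∈ Ux x := by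
        have : g * k * g⁻¹ ∈ Ux (g • x) := by
          rw [Ux_smul]
          have : g⁻¹ * (g * k * g⁻¹) * g = k := by group
          rwa [this]
        rwa [hgy] at this
      have h2 : g * k * g⁻¹ * k⁻¹ ∈ Ux x := mul_mem h1 (inv_mem hkU)
      have h3 := Ux_ker h x _ h2 (fun y => by
        rw [mul_smul, mul_smul, mul_smul]
        have hgi : ∀ z : XX σ s p, g⁻¹ • z = z := fun z => by rw [inv_smul_eq_iff, hgy]
        rw [hgi, smul_inv_smul, hgy])
      have h4 : g * k = k * g := by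
        have := mul_inv_eq_one.mp h3
        rw [mul_inv_eq_iff_eq_mul] at this
        exact this
      exact h4.symm
    have htop : (⊤ : Subgroup ↥(Tri p s (σ s))) ≤ Subgroup.centralizer {g} := by
      rw [← iSup_Tx h]
      exact iSup_le hcent
    rw [Subgroup.mem_center_iff]
    intro k
    have hk := htop (Subgroup.mem_top k)
    rw [Subgroup.mem_centralizer_singleton_iff] at hk
    exact hk
  · intro z hz
    rw [Subgroup.mem_center_iff] at hz
    have hz0 : z • x0 σ s p = x0 σ s p := by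
      by_contra hne
      have key : ∀ k ∈ Ux (x0 σ s p), k • (z • x0 σ s p) = z • x0 σ s p := by
        intro k hk
        have hk0 : k • x0 σ s p = x0 σ s p := by
          apply Subtype.ext
          rw [coe_smul_XX]
          change k.1 • Projectivization.mk K e0 e0_ne = Projectivization.mk K e0 e0_ne
          rw [Projectivization.smul_mk]
          congr 1
          exact (mem_Ux0 k).mp hk
        rw [← mul_smul, hz k, mul_smul, hk0]
      have hadm : (s - σ s) * (1 * σ 1) / 2 - σ ((s - σ s) * (1 * σ 1) / 2) =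
          (s - σ s) * (1 * σ 1) := by
        have h2K : (2 : K) ≠ 0 := by
          have := (map_ne_zero (algebraMap (ZMod p) K)).mpr h.h2
          rwa [map_ofNat] at this
        rw [map_div₀, map_mul, map_sub, map_mul, h.hσ, h.hσ, map_ofNat]
        field_simp
        ring
      have hum := UM_mem (p := p) h.hσ h.h2 h.hs h.hne h.hgen 1 _ hadm
      obtain ⟨k, hk, hk'⟩ := Ux_trans0 h (z • x0 σ s p) (x1 σ s p) hne x0_ne_x1.symm
      have e1 : z • x0 σ s p = x1 σ s p := by rw [← hk', key k hk]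
      have e2 := key ⟨UM σ s 1 _, hum⟩ ((mem_Ux0 _).mpr (UM_e0 _ _))
      rw [e1] at e2
      have e3 : UM σ s 1 ((s - σ s) * (1 * σ 1) / 2) • P1 K = P1 K := congrArg Subtype.val e2
      have e4 : UM σ s 1 ((s - σ s) * (1 * σ 1) / 2) • P1 K = UM σ s 0 0 • P1 K := by
        rw [e3, UM_zero, one_smul]
      exact one_ne_zero (UM_P1_inj _ _ _ _ e4)
    rw [MonoidHom.mem_ker]
    apply Equiv.ext
    intro x
    obtain ⟨w, hw⟩ := MulAction.exists_smul_eq (↥(Tri p s (σ s))) (x0 σ s p) x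
    change z • x = x
    rw [← hw, ← mul_smul, ← hz w, mul_smul, hz0]

/-- the quotient of the triangle group by its centre is the simple group `QQ` -/
theorem simple_mod_center (h : Good p K σ s) :
    Nonempty (↥(Tri p s (σ s)) ⧸ Subgroup.center ↥(Tri p s (σ s)) ≃* ↥(QQ σ s p)) := by
  have e := QuotientGroup.quotientKerEquivRange
    (MulAction.toPermHom (↥(Tri p s (σ s))) (XX σ s p))
  have e' := QuotientGroup.quotientMulEquivOfEq (ker_eq_center h)
  exact ⟨e'.symm.trans e⟩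

end Geometry

end Pool.Agent.Helper5.BK
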