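import Mathlib
import Pool.Agent.Helper5.BK.SU

set_option autoImplicit false

namespace Pool.Agent.Helper5.BK

open Matrix Pool.Agent.Helper5.PropT
open scoped LinearAlgebra.Projectivization Pointwise

section Conj

variable {K : Type} [Field K]

/-- The special unitary group of the standard form `Σ σ(x_i) y_i`, `σ` the automorphism. -/
def SUg (σ : K →+* K) : Subgroup (Matrix.SpecialLinearGroup (Fin 3) K) where
  carrier := {g | ((g : Matrix (Fin 3) (Fin 3) K).map σ)ᵀ * (g : Matrix (Fin 3) (Fin 3) K) = 1}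
  one_mem' := by
    change ((1 : Matrix (Fin 3) (Fin 3) K).map σ)ᵀ * (1 : Matrix (Fin 3) (Fin 3) K) = 1
    rw [Matrix.map_one σ (map_zero σ) (map_one σ)]
    simp
  mul_mem' := by
    intro a b ha hb
    change ((a.1 * b.1).map σ)ᵀ * (a.1 * b.1) = 1
    change (a.1.map σ)ᵀ * a.1 = 1 at ha
    change (b.1.map σ)ᵀ * b.1 = 1 at hb
    rw [Matrix.map_mul, Matrix.transpose_mul]
    calc (b.1.map σ)ᵀ * (a.1.map σ)ᵀ * (a.1 * b.1)
        = (b.1.map σ)ᵀ * ((a.1.map σ)ᵀ * a.1) * b.1 := by simp only [Matrix.mul_assoc]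
      _ = 1 := by rw [ha, Matrix.mul_one, hb]
  inv_mem' := by
    intro a ha
    change (a.1.map σ)ᵀ * a.1 = 1 at ha
    change ((a⁻¹).1.map σ)ᵀ * (a⁻¹).1 = 1
    have h1 : a.1 * (a⁻¹).1 = 1 := by
      exact congrArg Subtype.val (mul_inv_cancel a)
    have h2 : (a.1.map σ)ᵀ = (a⁻¹).1 := by
      calc (a.1.map σ)ᵀ = (a.1.map σ)ᵀ * (a.1 * (a⁻¹).1) := by rw [h1, Matrix.mul_one]
        _ = ((a.1.map σ)ᵀ * a.1) * (a⁻¹).1 := by rw [Matrix.mul_assoc]
        _ = (a⁻¹).1 := by rw [ha, Matrix.one_mul]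
    have h3 : ((a⁻¹).1.map σ)ᵀ * (a.1.map σ)ᵀ = 1 := by
      rw [← Matrix.transpose_mul, ← Matrix.map_mul, h1,
        Matrix.map_one σ (map_zero σ) (map_one σ), Matrix.transpose_one]
    rwa [h2] at h3

theorem mem_SUg (σ : K →+* K) (g : Matrix.SpecialLinearGroup (Fin 3) K) : g ∈ SUg σ ↔
    ((g : Matrix (Fin 3) (Fin 3) K).map σ)ᵀ * (g : Matrix (Fin 3) (Fin 3) K) = 1 := Iff.rfl

/-- conjugation by an invertible matrix -/
def cj (P Q : Matrix (Fin 3) (Fin 3) K) (h : Q * P = 1) :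
    Matrix.SpecialLinearGroup (Fin 3) K →* Matrix.SpecialLinearGroup (Fin 3) K where
  toFun g := ⟨Q * g.1 * P, by
    have h1 : Q.det * P.det = 1 := by rw [← Matrix.det_mul, h, Matrix.det_one]
    rw [Matrix.det_mul, Matrix.det_mul, g.2, mul_one, h1]⟩
  map_one' := by
    apply Subtype.ext
    change Q * (1 : Matrix (Fin 3) (Fin 3) K) * P = 1
    rw [Matrix.mul_one, h]
  map_mul' a b := by
    apply Subtype.ext
    change Q * (a.1 * b.1) * P = (Q * a.1 * P) * (Q * b.1 * P)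
    have h' : P * Q = 1 := mul_eq_one_comm.mp h
    calc Q * (a.1 * b.1) * P = Q * a.1 * (1 * b.1) * P := by
          rw [Matrix.one_mul]; simp only [Matrix.mul_assoc]
      _ = (Q * a.1 * P) * (Q * b.1 * P) := by rw [← h']; simp only [Matrix.mul_assoc]

theorem cj_inj (P Q : Matrix (Fin 3) (Fin 3) K) (h : Q * P = 1) : Function.Injective (cj P Q h) := by
  intro a b hab
  have h' : P * Q = 1 := mul_eq_one_comm.mp h
  have h1 : Q * a.1 * P = Q * b.1 * P := congrArg Subtype.val hab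
  apply Subtype.ext
  calc a.1 = (P * Q) * a.1 * (P * Q) := by rw [h', Matrix.one_mul, Matrix.mul_one]
    _ = P * (Q * a.1 * P) * Q := by simp only [Matrix.mul_assoc]
    _ = P * (Q * b.1 * P) * Q := by rw [h1]
    _ = (P * Q) * b.1 * (P * Q) := by simp only [Matrix.mul_assoc]
    _ = b.1 := by rw [h', Matrix.one_mul, Matrix.mul_one]

theorem cj_surj (P Q : Matrix (Fin 3) (Fin 3) K) (h : Q * P = 1) : Function.Surjective (cj P Q h) := by
  intro b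
  have h' : P * Q = 1 := mul_eq_one_comm.mp h
  refine ⟨cj Q P h' b, ?_⟩
  apply Subtype.ext
  change Q * (P * b.1 * Q) * P = b.1
  calc Q * (P * b.1 * Q) * P = (Q * P) * b.1 * (Q * P) := by simp only [Matrix.mul_assoc]
    _ = b.1 := by rw [h, Matrix.one_mul, Matrix.mul_one]

/-- the Gram matrix of `ff` -/
def JJ (σ : K →+* K) (s : K) : Matrix (Fin 3) (Fin 3) K := !![0, 1, -σ s; -1, 0, 1; s, -1, 0]

theorem ff_eq (σ : K →+* K) (s : K) (x y : Fin 3 → K) :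
    ff σ s x y = (fun i => σ (x i)) ⬝ᵥ (JJ σ s *ᵥ y) := by
  simp only [ff, JJ, Matrix.mulVec, dotProduct, Fin.sum_univ_three]
  simp
  ring

theorem dot_aux (A B : Matrix (Fin 3) (Fin 3) K) (u y : Fin 3 → K) :
    (A *ᵥ u) ⬝ᵥ (B *ᵥ y) = u ⬝ᵥ ((Aᵀ * B) *ᵥ y) := by
  rw [← Matrix.mulVec_mulVec, Matrix.dotProduct_mulVec u, Matrix.vecMul_transpose]

theorem bil_ext (A B : Matrix (Fin 3) (Fin 3) K) (σ : K →+* K)
    (h : ∀ x y : Fin 3 → K, (fun i => σ (x i)) ⬝ᵥ (A *ᵥ y) = (fun i => σ (x i)) ⬝ᵥ (B *ᵥ y)) :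
    A = B := by
  ext i j
  have h1 := h (Pi.single i 1) (Pi.single j 1)
  have e : (fun k => σ ((Pi.single i 1 : Fin 3 → K) k)) = Pi.single i 1 := by
    funext k
    by_cases hk : k = i
    · subst hk; simp
    · simp [Pi.single_eq_of_ne hk]
  rw [e] at h1
  simpa using h1

theorem pres_iff (σ : K →+* K) (s : K) (g : Matrix.SpecialLinearGroup (Fin 3) K) :
    Pres σ s g ↔ (g.1.map σ)ᵀ * JJ σ s * g.1 = JJ σ s := by
  have key : ∀ x y : Fin 3 → K, ff σ s (g • x) (g • y) =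
      (fun i => σ (x i)) ⬝ᵥ (((g.1.map σ)ᵀ * JJ σ s * g.1) *ᵥ y) := by
    intro x y
    rw [ff_eq]
    have e : (fun i => σ ((g • x) i)) = (g.1.map σ) *ᵥ (fun i => σ (x i)) := by
      funext i
      rw [smul_apply3]
      simp only [Matrix.mulVec, dotProduct, Fin.sum_univ_three, Matrix.map_apply, map_add, map_mul]
    have e2 : g • y = g.1 *ᵥ y := rfl
    rw [e, e2, Matrix.mulVec_mulVec, dot_aux, Matrix.mul_assoc]
  constructor
  · intro h
    apply bil_ext _ _ σ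
    intro x y
    rw [← key, h x y, ff_eq]
  · intro h x y
    rw [key, h, ← ff_eq]

theorem conj_iff (σ : K →+* K) (s : K) (P : Matrix (Fin 3) (Fin 3) K) (d : K) (hd : d ≠ 0)
    (h : (d • ((P.map σ)ᵀ * JJ σ s)) * P = 1) (g : Matrix.SpecialLinearGroup (Fin 3) K) :
    cj P (d • ((P.map σ)ᵀ * JJ σ s)) h g ∈ SUg σ ↔ Pres σ s g := by
  set Q := d • ((P.map σ)ᵀ * JJ σ s) with hQ
  have h' : P * Q = 1 := mul_eq_one_comm.mp h
  have hT : ∀ A B : Matrix (Fin 3) (Fin 3) K, ((A * B).map σ)ᵀ = (B.map σ)ᵀ * (A.map σ)ᵀ := by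
    intro A B; rw [Matrix.map_mul, Matrix.transpose_mul]
  have h1 : (P.map σ)ᵀ * (Q.map σ)ᵀ = 1 := by
    rw [← hT, h, Matrix.map_one σ (map_zero σ) (map_one σ), Matrix.transpose_one]
  have h1' : (Q.map σ)ᵀ * (P.map σ)ᵀ = 1 := mul_eq_one_comm.mp h1
  have h2 : (Q.map σ)ᵀ * Q = d • JJ σ s := by
    rw [hQ, Matrix.mul_smul, ← Matrix.mul_assoc]
    rw [← hQ, h1', Matrix.one_mul]
  rw [mem_SUg, pres_iff]
  change ((Q * g.1 * P).map σ)ᵀ * (Q * g.1 * P) = 1 ↔ _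
  rw [hT, hT]
  have e1 : (P.map σ)ᵀ * ((g.1.map σ)ᵀ * (Q.map σ)ᵀ) * (Q * g.1 * P) =
      (P.map σ)ᵀ * (d • ((g.1.map σ)ᵀ * JJ σ s * g.1)) * P := by
    calc (P.map σ)ᵀ * ((g.1.map σ)ᵀ * (Q.map σ)ᵀ) * (Q * g.1 * P)
        = (P.map σ)ᵀ * ((g.1.map σ)ᵀ * ((Q.map σ)ᵀ * Q) * g.1) * P := by
          simp only [Matrix.mul_assoc]
      _ = _ := by rw [h2, Matrix.mul_smul, Matrix.smul_mul]
  rw [e1]
  constructor
  · intro h3
    have h4 : d • ((g.1.map σ)ᵀ * JJ σ s * g.1) = d • JJ σ s := by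
      calc d • ((g.1.map σ)ᵀ * JJ σ s * g.1)
          = ((Q.map σ)ᵀ * (P.map σ)ᵀ) * (d • ((g.1.map σ)ᵀ * JJ σ s * g.1)) * (P * Q) := by
            rw [h1', h', Matrix.one_mul, Matrix.mul_one]
        _ = (Q.map σ)ᵀ * ((P.map σ)ᵀ * (d • ((g.1.map σ)ᵀ * JJ σ s * g.1)) * P) * Q := by
            simp only [Matrix.mul_assoc]
        _ = (Q.map σ)ᵀ * Q := by rw [h3, Matrix.mul_one]
        _ = d • JJ σ s := h2
    exact smul_right_injective _ hd h4
  · intro h3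
    rw [h3, Matrix.mul_smul, ← hQ, h]

theorem exists_P_aux (σ : K →+* K) (s ε d : K) (hσ : ∀ x, σ (σ x) = x) (h2 : (2 : K) ≠ 0)
    (hd : d ≠ 0) (hds : s - σ s = d) (hε : ε * σ ε = -1) :
    (d • (((!![-1 / (2 * d), 1 / (2 * d * ε), 1 / (ε * d);
      1, 1 / ε, σ s / (ε * d); 0, 0, 1 / (ε * d)] : Matrix (Fin 3) (Fin 3) K).map σ)ᵀ *
      JJ σ s)) * !![-1 / (2 * d), 1 / (2 * d * ε), 1 / (ε * d);
      1, 1 / ε, σ s / (ε * d); 0, 0, 1 / (ε * d)] = 1 := by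
  have hε0 : ε ≠ 0 := by rintro rfl; simp at hε
  have hσε : σ ε = -ε⁻¹ := by
    field_simp
    linear_combination hε
  have hσd : σ d = -d := by rw [← hds, map_sub, hσ]; ring
  have hσs : σ s = s - d := by linear_combination -hds
  have hσ2 : σ 2 = 2 := map_ofNat σ 2
  have hM : (!![-1 / (2 * d), 1 / (2 * d * ε), 1 / (ε * d);
      1, 1 / ε, σ s / (ε * d); 0, 0, 1 / (ε * d)] : Matrix (Fin 3) (Fin 3) K).map σ =
      !![1 / (2 * d), ε / (2 * d), ε / d; 1, -ε, ε * s / d; 0, 0, ε / d] := by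
    ext i j
    fin_cases i <;> fin_cases j <;> simp [hσ, hσd, hσε, hσ2]
    all_goals try field_simp
  rw [hM, hσs]
  ext i j
  rw [Matrix.smul_mul, Matrix.smul_apply, Matrix.mul_apply, Fin.sum_univ_three]
  simp only [Matrix.mul_apply, Fin.sum_univ_three]
  fin_cases i <;> fin_cases j <;> simp [JJ, hσs]
  all_goals try field_simp
  all_goals try ring_nf
  all_goals simp

theorem exists_P (σ : K →+* K) (s ε : K) (hσ : ∀ x, σ (σ x) = x) (h2 : (2 : K) ≠ 0)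
    (hne : s ≠ σ s) (hε : ε * σ ε = -1) :
    ∃ P : Matrix (Fin 3) (Fin 3) K, ((s - σ s) • ((P.map σ)ᵀ * JJ σ s)) * P = 1 :=
  ⟨_, exists_P_aux σ s ε (s - σ s) hσ h2 (sub_ne_zero.mpr hne) rfl hε⟩

end Conj

end Pool.Agent.Helper5.BK
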