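import Mathlib
import Pool.Agent.Helper5.BK.PSU
import Pool.Agent.Helper5.GoodField

set_option autoImplicit false

namespace Pool.Agent.Helper5.BK

open Matrix Pool.Agent.Helper5.PropT

/-- the special unitary group of the standard form is a conjugate of the triangle group -/
theorem SUg_equiv {K : Type} [Field K] {σ : K →+* K} {s : K} {p : ℕ} [Fact p.Prime]
    [Algebra (ZMod p) K] (h : Good p K σ s) (hN : ∀ f : K, σ f = f → ∃ x, x * σ x = f) :
    Nonempty (↥(Tri p s (σ s)) ≃* ↥(SUg σ)) := by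
  have h2K : (2 : K) ≠ 0 := by
    have := (map_ne_zero (algebraMap (ZMod p) K)).mpr h.h2
    rwa [map_ofNat] at this
  obtain ⟨ε, hε⟩ := hN (-1) (by rw [map_neg, map_one])
  obtain ⟨P, hP⟩ := exists_P σ s ε h.hσ h2K h.hne hε
  have hmap : (Tri p s (σ s)).map (cj P _ hP) = SUg σ := by
    ext g
    constructor
    · rintro ⟨k, hk, rfl⟩
      exact (conj_iff σ s P _ (sub_ne_zero.mpr h.hne) hP k).mpr ((mem_Tri_iff h hN k).mp hk)
    · intro hg
      obtain ⟨k, rfl⟩ := cj_surj P _ hP g
      exact ⟨k, (mem_Tri_iff h hN k).mpr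
        ((conj_iff σ s P _ (sub_ne_zero.mpr h.hne) hP k).mp hg), rfl⟩
  exact ⟨((Tri p s (σ s)).equivMapOfInjective (cj P _ hP) (cj_inj P _ hP)).trans
    (MulEquiv.subgroupCongr hmap)⟩

/-- an isomorphism induces one of the quotients by the centres -/
theorem quot_center {A B : Type} [Group A] [Group B] (e : A ≃* B) :
    Nonempty (A ⧸ Subgroup.center A ≃* B ⧸ Subgroup.center B) := by
  refine ⟨QuotientGroup.congr _ _ e ?_⟩
  ext b
  constructor
  · rintro ⟨a, ha, rfl⟩
    rw [Subgroup.mem_center_iff]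
    intro c
    have h1 := (Subgroup.mem_center_iff.mp ha) (e.symm c)
    have h2 := congrArg e h1
    simpa using h2
  · intro hb
    refine ⟨e.symm b, ?_, by simp⟩
    change e.symm b ∈ Subgroup.center A
    rw [Subgroup.mem_center_iff]
    intro c
    have h1 := (Subgroup.mem_center_iff.mp hb) (e c)
    apply e.injective
    simpa using h1

/-- The group `PSU₃` of the automorphism `σ`. -/
abbrev PSg {K : Type} [Field K] (σ : K →+* K) : Type := ↥(SUg σ) ⧸ Subgroup.center ↥(SUg σ)

theorem QQ_equiv {K : Type} [Field K] {σ : K →+* K} {s : K} {p : ℕ} [Fact p.Prime]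
    [Algebra (ZMod p) K] (h : Good p K σ s) (hN : ∀ f : K, σ f = f → ∃ x, x * σ x = f) :
    Nonempty (PSg σ ≃* ↥(QQ σ s p)) := by
  obtain ⟨e⟩ := SUg_equiv h hN
  obtain ⟨e1⟩ := quot_center e
  obtain ⟨e2⟩ := simple_mod_center h
  exact ⟨e1.symm.trans e2⟩

/-- `PSU₃` is a finite simple group, at least as large as the field. -/
theorem PSg_simple {K : Type} [Field K] [Finite K] {σ : K →+* K} {s : K} {p : ℕ} [Fact p.Prime]
    [Algebra (ZMod p) K] (h : Good p K σ s) (hN : ∀ f : K, σ f = f → ∃ x, x * σ x = f) :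
    Finite (PSg σ) ∧ IsSimpleGroup (PSg σ) ∧ Nat.card K ≤ Nat.card (PSg σ) := by
  obtain ⟨e⟩ := QQ_equiv h hN
  obtain ⟨h1, h2, h3, -⟩ := main_quotient h
  refine ⟨Finite.of_equiv _ e.symm.toEquiv, ?_, ?_⟩
  · exact MulEquiv.isSimpleGroup e
  · rw [Nat.card_congr e.toEquiv]; exact h3

theorem card_le {K : Type} [Field K] [Finite K] (σ : K →+* K) :
    Nat.card (PSg σ) ≤ Nat.card K ^ 9 := by
  have h1 : Nat.card (PSg σ) ≤ Nat.card ↥(SUg σ) :=
    Nat.card_le_card_of_surjective _ (QuotientGroup.mk'_surjective _)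
  have h2 : Nat.card ↥(SUg σ) ≤ Nat.card (Fin 3 → Fin 3 → K) := by
    refine Nat.card_le_card_of_injective
      (fun g : ↥(SUg σ) => (g.1.1 : Fin 3 → Fin 3 → K)) ?_
    intro a b hab
    exact Subtype.ext (Subtype.ext hab)
  refine h1.trans (h2.trans ?_)
  rw [Nat.card_fun, Nat.card_fun, Nat.card_fin, ← pow_mul]

/-- the field data, with the explicit automorphism `x ↦ x ^ q` -/
theorem exists_good_frob {p : ℕ} [Fact p.Prime] (hp : 5 ≤ p) (K : Type) [Field K] [Finite K]
    [Algebra (ZMod p) K] [ExpChar K p] (n : ℕ)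
    (hn : 1 ≤ n) (hfin : Module.finrank (ZMod p) K = 2 ^ (n + 1)) :
    ∃ s : K, Good p K (iterateFrobenius K p (2 ^ n)) s := by
  classical
  have hpp : p.Prime := Fact.out
  have : Fintype K := Fintype.ofFinite K
  have : CharP K p := charP_of_injective_algebraMap (algebraMap (ZMod p) K).injective p
  set q := p ^ (2 ^ n) with hq
  have hcard : Fintype.card K = q * q := by
    rw [Module.card_eq_pow_finrank (K := ZMod p) (V := K), hfin, ZMod.card, hq, ← pow_add]
    congr 1
    rw [pow_succ]; ring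
  have hq25 : 25 ≤ q := by
    have h1 : 2 ≤ 2 ^ n := by
      calc 2 = 2 ^ 1 := by norm_num
        _ ≤ 2 ^ n := Nat.pow_le_pow_right (by norm_num) hn
    calc 25 = 5 ^ 2 := by norm_num
      _ ≤ p ^ 2 := Nat.pow_le_pow_left hp 2
      _ ≤ p ^ (2 ^ n) := Nat.pow_le_pow_right hpp.pos h1
  obtain ⟨g, hg⟩ := IsCyclic.exists_ofOrder_eq_natCard (α := Kˣ)
  have hcu : Nat.card Kˣ = q * q - 1 := by
    rw [Nat.card_eq_fintype_card, Fintype.card_units, hcard]
  rw [hcu] at hg
  have hq1 : 1 ≤ q := by omega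
  have hfac : q * q - 1 = (q - 1) * (q + 1) := by
    have gen : ∀ r : ℕ, 1 ≤ r → r * r - 1 = (r - 1) * (r + 1) := by
      intro r hr
      obtain ⟨t, rfl⟩ : ∃ t, r = t + 1 := ⟨r - 1, by omega⟩
      have : (t + 1) * (t + 1) = t * (t + 1 + 1) + 1 := by ring
      rw [this]; simp
    exact gen q hq1
  set s : K := ((g ^ (q - 1) : Kˣ) : K) with hs
  have hσdef : ∀ x : K, iterateFrobenius K p (2 ^ n) x = x ^ q := fun x => iterateFrobenius_def p _ x
  have hpow : ∀ x : K, (x ^ q) ^ q = x := by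
    intro x
    rw [← pow_mul, ← hcard, FiniteField.pow_card]
  have hss : s * s ^ q = 1 := by
    have h1 : (g ^ (q - 1)) * (g ^ (q - 1)) ^ q = 1 := by
      rw [← pow_succ', ← pow_mul, ← hfac, ← hg, pow_orderOf_eq_one]
    rw [hs, ← Units.val_pow_eq_pow_val, ← Units.val_mul, h1, Units.val_one]
  have hpow_ne : ∀ m : ℕ, 0 < m → m ≤ 6 → s ^ m ≠ 1 := by
    intro m hm hm6 h
    have h1 : g ^ ((q - 1) * m) = 1 := by
      apply Units.ext
      rw [pow_mul, Units.val_pow_eq_pow_val, ← hs, h, Units.val_one]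
    have h2 := orderOf_dvd_of_pow_eq_one h1
    rw [hg, hfac] at h2
    have h3 : (q + 1) ∣ m := Nat.dvd_of_mul_dvd_mul_left (by omega) h2
    have h4 := Nat.le_of_dvd hm h3
    omega
  refine ⟨s, ?_, ?_, ?_, ?_, ?_, ?_⟩
  · intro x; rw [hσdef, hσdef, hpow]
  · intro h
    have : ((2 : ℕ) : ZMod p) = 0 := by exact_mod_cast h
    rw [ZMod.natCast_eq_zero_iff] at this
    have := Nat.le_of_dvd (by norm_num) this
    omega
  · intro h
    have : ((3 : ℕ) : ZMod p) = 0 := by exact_mod_cast h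
    rw [ZMod.natCast_eq_zero_iff] at this
    have := Nat.le_of_dvd (by norm_num) this
    omega
  · rw [hσdef, hss]
  · rw [hσdef]
    intro h
    apply hpow_ne 2 (by norm_num) (by norm_num)
    rw [sq]
    nth_rewrite 2 [h]
    exact hss
  · -- generation
    have hint : IsAlgebraic (ZMod p) (s ^ 3) := Algebra.IsAlgebraic.isAlgebraic _
    rw [← IntermediateField.adjoin_simple_toSubalgebra_of_isAlgebraic hint]
    set F := IntermediateField.adjoin (ZMod p) {s ^ 3} with hF
    have hmem : s ^ 3 ∈ F := IntermediateField.mem_adjoin_simple_self _ _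
    have hmul : Module.finrank (ZMod p) F * Module.finrank F K = 2 ^ (n + 1) := by
      rw [Module.finrank_mul_finrank, hfin]
    obtain ⟨i, hi, hi'⟩ := (Nat.dvd_prime_pow Nat.prime_two).mp (Dvd.intro _ hmul)
    rcases Nat.lt_or_ge i (n + 1) with hlt | hge
    · exfalso
      have hFc : Fintype.card F = p ^ (2 ^ i) := by
        rw [Module.card_eq_pow_finrank (K := ZMod p) (V := F), hi', ZMod.card]
      have h1 : ∀ x : F, x ^ q = x := by
        intro x
        have h2 := FiniteField.pow_card_pow (2 ^ (n - i)) x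
        rw [hFc, ← pow_mul, ← pow_add] at h2
        have h3 : i + (n - i) = n := by omega
        rw [h3] at h2
        exact h2
      have h2 : (s ^ 3) ^ q = s ^ 3 := congrArg Subtype.val (h1 ⟨s ^ 3, hmem⟩)
      apply hpow_ne 6 (by norm_num) (by norm_num)
      calc s ^ 6 = s ^ 3 * s ^ 3 := by ring
        _ = s ^ 3 * (s ^ 3) ^ q := by rw [h2]
        _ = (s * s ^ q) ^ 3 := by ring
        _ = 1 := by rw [hss, one_pow]
    · have hi2 : i = n + 1 := le_antisymm hi hge
      have hF1 : Module.finrank F K = 1 := by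
        rw [hi', hi2] at hmul
        have : 0 < 2 ^ (n + 1) := by positivity
        exact Nat.eq_of_mul_eq_mul_left this (by rw [hmul, mul_one])
      have : F = ⊤ := IntermediateField.finrank_eq_one_iff_eq_top.mp hF1
      rw [this]
      rfl

/-- surjectivity of the norm for the automorphism `x ↦ x ^ q` -/
theorem norm_frob {p : ℕ} [Fact p.Prime] (K : Type) [Field K] [Finite K]
    [Algebra (ZMod p) K] [ExpChar K p] (n : ℕ)
    (hfin : Module.finrank (ZMod p) K = 2 ^ (n + 1)) (f : K)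
    (hf : iterateFrobenius K p (2 ^ n) f = f) :
    ∃ x, x * iterateFrobenius K p (2 ^ n) x = f := by
  have hpp : p.Prime := Fact.out
  have hcard : Nat.card K = p ^ (2 ^ n) * p ^ (2 ^ n) := by
    rw [Module.natCard_eq_pow_finrank (K := ZMod p) (V := K), hfin, Nat.card_zmod, ← pow_add]
    congr 1
    rw [pow_succ]; ring
  rw [iterateFrobenius_def] at hf
  obtain ⟨x, hx⟩ := norm_surj (p ^ (2 ^ n)) (Nat.one_lt_pow (by positivity) hpp.one_lt) hcard f hf
  exact ⟨x, by rw [iterateFrobenius_def]; exact hx⟩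

end Pool.Agent.Helper5.BK
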