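import Mathlib
import Pool.Agent.Helper5.Triangle
import Pool.Agent.Helper5.BK.T
import Pool.Agent.Helper5.BK.Quot
import Pool.Agent.Helper5.BK.Fell

set_option autoImplicit false

universe u

namespace Pool.Agent.Helper5.BK

open Matrix Pool.Agent.Helper5.PropT

section Aux

variable {p : ℕ} [Fact p.Prime]

/-- The triangle group is functorial in the coefficient ring. -/
theorem map_Tri' {S K : Type*} [CommRing S] [CommRing K] [Algebra (ZMod p) S] [Algebra (ZMod p) K]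
    (φ : S →+* K) (s s' : S) :
    (Tri p s s').map (Matrix.SpecialLinearGroup.map φ) = Tri p (φ s) (φ s') := by
  have hal : ∀ a : ZMod p, φ (algebraMap (ZMod p) S a) = algebraMap (ZMod p) K a := by
    intro a
    have h : φ.comp (algebraMap (ZMod p) S) = algebraMap (ZMod p) K := Subsingleton.elim _ _
    exact congrArg (fun f : ZMod p →+* K => f a) h
  have h1 : ∀ a, Matrix.SpecialLinearGroup.map φ (t1H p s' a) = t1H p (φ s') a := by
    intro a
    apply Subtype.ext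
    change (!![1, algebraMap (ZMod p) S a.toAdd, -(algebraMap (ZMod p) S a.toAdd * s'); 0, 1, 0; 0, 0, 1]
      : Matrix (Fin 3) (Fin 3) S).map φ =
      !![1, algebraMap (ZMod p) K a.toAdd, -(algebraMap (ZMod p) K a.toAdd * φ s'); 0, 1, 0; 0, 0, 1]
    ext i j
    fin_cases i <;> fin_cases j <;> simp [hal]
  have h2 : ∀ a, Matrix.SpecialLinearGroup.map φ (t2H p a) = t2H p a := by
    intro a
    apply Subtype.ext
    change (!![1, 0, 0; -algebraMap (ZMod p) S a.toAdd, 1, algebraMap (ZMod p) S a.toAdd; 0, 0, 1]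
      : Matrix (Fin 3) (Fin 3) S).map φ =
      !![1, 0, 0; -algebraMap (ZMod p) K a.toAdd, 1, algebraMap (ZMod p) K a.toAdd; 0, 0, 1]
    ext i j
    fin_cases i <;> fin_cases j <;> simp [hal]
  have h3 : ∀ a, Matrix.SpecialLinearGroup.map φ (t3H p s a) = t3H p (φ s) a := by
    intro a
    apply Subtype.ext
    change (!![1, 0, 0; 0, 1, 0; algebraMap (ZMod p) S a.toAdd * s, -algebraMap (ZMod p) S a.toAdd, 1]
      : Matrix (Fin 3) (Fin 3) S).map φ =
      !![1, 0, 0; 0, 1, 0; algebraMap (ZMod p) K a.toAdd * φ s, -algebraMap (ZMod p) K a.toAdd, 1]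
    ext i j
    fin_cases i <;> fin_cases j <;> simp [hal]
  unfold Tri
  rw [MonoidHom.map_closure]
  congr 1
  rw [Set.image_union, Set.image_union, ← Set.range_comp, ← Set.range_comp, ← Set.range_comp]
  congr 1
  · congr 1
    · congr 1; funext a; exact h1 a
    · congr 1; funext a; exact h2 a
  · congr 1; funext a; exact h3 a

/-- a Kazhdan pair for the triangle group over any commutative `𝔽_p`-algebra -/
theorem kazhdan_Tri (hp : 5 ≤ p) {S : Type} [CommRing S] [Algebra (ZMod p) S] (s s' : S)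
    (hs : s * s' = 1) : HasKazhdanPair.{u} ↥(Tri p s s') := by
  classical
  have hr1 : Real.sqrt (29 / 30) < 1 := by
    rw [Real.sqrt_lt' one_pos]; norm_num
  refine ⟨Finset.univ.image ((t1H p s').codRestrict (Tri p s s') (t1_mem s s')) ∪
    Finset.univ.image ((t2H p (S := S)).codRestrict (Tri p s s') (t2_mem s s')) ∪
    Finset.univ.image ((t3H p s).codRestrict (Tri p s s') (t3_mem s s')),
    (1 - Real.sqrt (29 / 30)) / 4, by linarith, ?_⟩
  intro H _ _ _ ρ v hv1 hv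
  let ρ' : ↥(Tri p s s') →* unitary (H →L[ℂ] H) :=
    (Unitary.linearIsometryEquiv (𝕜 := ℂ) (H := H)).symm.toMonoidHom.comp ρ
  have hρ : ∀ g (x : H), (ρ' g : H →L[ℂ] H) x = ρ g x := fun g x => rfl
  suffices h : ∃ w : H, w ≠ 0 ∧ ∀ g : ↥(Tri p s s'), (ρ' g : H →L[ℂ] H) w = w by
    obtain ⟨w, hw, hw'⟩ := h
    exact ⟨w, hw, fun g => by rw [← hρ]; exact hw' g⟩
  refine kazhdan_of_triangle hp
    ((t1H p s').codRestrict (Tri p s s') (t1_mem s s'))
    ((t2H p (S := S)).codRestrict (Tri p s s') (t2_mem s s'))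
    ((t3H p s).codRestrict (Tri p s s') (t3_mem s s'))
    ((psi12 s').codRestrict (Tri p s s') (psi12_mem s s'))
    ((psi23 s).codRestrict (Tri p s s') (psi23_mem s s'))
    ((psi31 s s' hs).codRestrict (Tri p s s') (psi31_mem s s' hs))
    (fun a => Subtype.ext (psi12_xx s' a)) (fun a => Subtype.ext (psi12_yy s' a))
    (fun a => Subtype.ext (psi23_xx s a)) (fun a => Subtype.ext (psi23_yy s a))
    (fun a => Subtype.ext (psi31_xx s s' hs a)) (fun a => Subtype.ext (psi31_yy s s' hs a))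
    ?_ ρ' v hv1 ?_
  · have h := Subgroup.closure_closure_coe_preimage
      (k := Set.range (t1H p s') ∪ Set.range (t2H p (S := S)) ∪ Set.range (t3H p s))
    refine (congrArg Subgroup.closure ?_).trans h
    ext x
    simp only [Set.mem_union, Set.mem_range, Set.mem_preimage]
    constructor
    · rintro ((⟨a, rfl⟩ | ⟨a, rfl⟩) | ⟨a, rfl⟩)
      · exact Or.inl (Or.inl ⟨a, rfl⟩)
      · exact Or.inl (Or.inr ⟨a, rfl⟩)
      · exact Or.inr ⟨a, rfl⟩
    · rintro ((⟨a, ha⟩ | ⟨a, ha⟩) | ⟨a, ha⟩)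
      · exact Or.inl (Or.inl ⟨a, Subtype.ext ha⟩)
      · exact Or.inl (Or.inr ⟨a, Subtype.ext ha⟩)
      · exact Or.inr ⟨a, Subtype.ext ha⟩
  · intro g hg
    rw [hρ]
    apply hv
    simp only [Finset.mem_union, Finset.mem_image, Finset.mem_univ, true_and]
    rcases hg with (⟨a, rfl⟩ | ⟨a, rfl⟩) | ⟨a, rfl⟩
    · exact Or.inl (Or.inl ⟨a, rfl⟩)
    · exact Or.inl (Or.inr ⟨a, rfl⟩)
    · exact Or.inr ⟨a, rfl⟩

/-- the triangle group is finitely generated -/
theorem fg_Tri {S : Type} [CommRing S] [Algebra (ZMod p) S] (s s' : S) :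
    Group.FG ↥(Tri p s s') := by
  rw [Group.fg_iff_subgroup_fg, Subgroup.fg_iff]
  exact ⟨_, rfl, (((Set.finite_range _).union (Set.finite_range _)).union (Set.finite_range _))⟩

theorem quot_congr {X : Type} [Group X] (A B : Subgroup X) (h : A = B) :
    Nonempty (↥A ⧸ Subgroup.center ↥A ≃* ↥B ⧸ Subgroup.center ↥B) := by
  subst h
  exact ⟨MulEquiv.refl _⟩

theorem SU3_eq (m : ℕ) : SU3 p m = SUg (iterateFrobenius (GaloisField p (2 * m)) p m) := by
  ext g
  rw [mem_SUg, ← pow_eq_frob]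
  rfl

theorem PSU3_equiv (m : ℕ) :
    Nonempty (PSU3 p m ≃* PSg (iterateFrobenius (GaloisField p (2 * m)) p m)) :=
  quot_congr _ _ (SU3_eq (p := p) m)

theorem finrank_K (k : ℕ) : Module.finrank (ZMod p) (GaloisField p (2 * 2 ^ k)) = 2 ^ (k + 1) := by
  rw [GaloisField.finrank p (by positivity), pow_succ, mul_comm]

/-- the groups `PSU₃(p ^ (2 ^ k))`, `k ≥ 1`, are finite and simple; bounds for their order -/
theorem PSU3_facts (hp : 5 ≤ p) (k : ℕ) (hk : 1 ≤ k) :
    Finite (PSU3 p (2 ^ k)) ∧ IsSimpleGroup (PSU3 p (2 ^ k)) ∧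
      p ^ (2 ^ (k + 1)) ≤ Nat.card (PSU3 p (2 ^ k)) ∧
      Nat.card (PSU3 p (2 ^ k)) ≤ p ^ (9 * 2 ^ (k + 1)) := by
  have hne : 2 * 2 ^ k ≠ 0 := by positivity
  have hfin : Finite (GaloisField p (2 * 2 ^ k)) := inferInstance
  obtain ⟨s, hs⟩ := exists_good_frob hp (GaloisField p (2 * 2 ^ k)) k hk (finrank_K k)
  obtain ⟨h1, h2, h3⟩ := PSg_simple hs (norm_frob (GaloisField p (2 * 2 ^ k)) k (finrank_K k))
  have h4 := card_le (iterateFrobenius (GaloisField p (2 * 2 ^ k)) p (2 ^ k))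
  obtain ⟨e⟩ := PSU3_equiv (p := p) (2 ^ k)
  have hc : Nat.card (GaloisField p (2 * 2 ^ k)) = p ^ (2 ^ (k + 1)) := by
    rw [GaloisField.card p _ hne, pow_succ 2 k, mul_comm]
  rw [hc] at h3 h4
  have hcard := Nat.card_congr e.toEquiv
  refine ⟨Finite.of_equiv _ e.symm.toEquiv, MulEquiv.isSimpleGroup e, ?_, ?_⟩
  · rw [hcard]; exact h3
  · rw [hcard, mul_comm 9, pow_mul]; exact h4

theorem PSU3_lt (hp : 5 ≤ p) (i j : ℕ) (hij : i < j) :
    Nat.card (PSU3 p (2 ^ (4 * i + 1))) < Nat.card (PSU3 p (2 ^ (4 * j + 1))) := by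
  obtain ⟨-, -, -, h1⟩ := PSU3_facts hp (4 * i + 1) (by omega)
  obtain ⟨-, -, h2, -⟩ := PSU3_facts hp (4 * j + 1) (by omega)
  refine h1.trans_lt (lt_of_lt_of_le ?_ h2)
  apply Nat.pow_lt_pow_right (by omega)
  calc 9 * 2 ^ (4 * i + 1 + 1) < 16 * 2 ^ (4 * i + 1 + 1) := by
        have : 0 < 2 ^ (4 * i + 1 + 1) := by positivity
        omega
    _ = 2 ^ (4 * (i + 1) + 1 + 1) := by
        have : (16 : ℕ) = 2 ^ 4 := by norm_num
        rw [this, ← pow_add]
        congr 1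
        ring
    _ ≤ 2 ^ (4 * j + 1 + 1) := Nat.pow_le_pow_right (by norm_num) (by omega)

theorem PSU3_not_iso (hp : 5 ≤ p) (i j : ℕ) (hij : i ≠ j) :
    IsEmpty (PSU3 p (2 ^ (4 * i + 1)) ≃* PSU3 p (2 ^ (4 * j + 1))) := by
  refine ⟨fun e => ?_⟩
  have h := Nat.card_congr e.toEquiv
  rcases lt_or_gt_of_ne hij with h1 | h1
  · exact (PSU3_lt hp i j h1).ne h
  · exact (PSU3_lt hp j i h1).ne h.symm

/-- the main theorem -/
theorem main (hp : 5 ≤ p) :
    ∃ (G : Type) (_ : Group G), Group.FG G ∧ HasKazhdanPair.{u} G ∧ PropertyT G ∧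
      ∀ k : ℕ, 1 ≤ k → ∃ f : G →* PSU3 p (2 ^ k), Function.Surjective f := by
  -- the fields
  let K : ℕ → Type := fun j => GaloisField p (2 * 2 ^ (j + 1))
  let instF : ∀ j, Field (K j) := fun j => inferInstanceAs (Field (GaloisField p (2 * 2 ^ (j + 1))))
  let instA : ∀ j, Algebra (ZMod p) (K j) :=
    fun j => inferInstanceAs (Algebra (ZMod p) (GaloisField p (2 * 2 ^ (j + 1))))
  have hex : ∀ j, ∃ s : K j,
      Good p (K j) (iterateFrobenius (GaloisField p (2 * 2 ^ (j + 1))) p (2 ^ (j + 1))) s :=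
    fun j => exists_good_frob hp (GaloisField p (2 * 2 ^ (j + 1))) (j + 1) (by omega)
      (finrank_K (j + 1))
  choose s hgood using hex
  let σ : ∀ j, K j →+* K j :=
    fun j => iterateFrobenius (GaloisField p (2 * 2 ^ (j + 1))) p (2 ^ (j + 1))
  -- the group
  let S : Type := ∀ j, K j
  let sS : S := fun j => s j
  let sS' : S := fun j => σ j (s j)
  have hsS : sS * sS' = 1 := funext (fun j => (hgood j).hs)
  refine ⟨↥(Tri p sS sS'), inferInstance, fg_Tri sS sS', kazhdan_Tri hp sS sS' hsS, ?_, ?_⟩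
  · obtain ⟨Q, δ, hδ, hK⟩ := kazhdan_Tri.{0} hp sS sS' hsS
    exact propertyT_of_kazhdan Q δ hδ (fun H _ _ _ ρ v h1 h2 => hK H ρ v h1 h2)
  · intro k hk
    obtain ⟨j, rfl⟩ : ∃ j, k = j + 1 := ⟨k - 1, by omega⟩
    have hmap : (Tri p sS sS').map (Matrix.SpecialLinearGroup.map (Pi.evalRingHom K j)) =
      Tri p (s j) (σ j (s j)) := map_Tri' (Pi.evalRingHom K j) sS sS'
    let F1 : ↥(Tri p sS sS') →* ↥(Tri p (s j) (σ j (s j))) :=
      ((Matrix.SpecialLinearGroup.map (Pi.evalRingHom K j)).comp (Tri p sS sS').subtype).codRestrict _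
        (fun x => by rw [← hmap]; exact ⟨x.1, x.2, rfl⟩)
    have hF1 : Function.Surjective F1 := by
      rintro ⟨y, hy⟩
      rw [← hmap] at hy
      obtain ⟨x, hx, hxy⟩ := hy
      exact ⟨⟨x, hx⟩, Subtype.ext hxy⟩
    obtain ⟨e1⟩ := SUg_equiv (hgood j)
      (norm_frob (GaloisField p (2 * 2 ^ (j + 1))) (j + 1) (finrank_K (j + 1)))
    obtain ⟨e2⟩ := PSU3_equiv (p := p) (2 ^ (j + 1))
    refine ⟨(e2.symm.toMonoidHom.comp (QuotientGroup.mk' _)).comp (e1.toMonoidHom.comp F1), ?_⟩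
    exact (e2.symm.surjective.comp (QuotientGroup.mk'_surjective _)).comp
      (e1.surjective.comp hF1)

end Aux

end Pool.Agent.Helper5.BK
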